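import Pool.Agent.MP_7297ca_co.Final

namespace Pool.Agent.Results.MP_7297ca_co.ShiftedSetupRatio

open Pool.Agent.MP_7297ca_co

/-- Full answer to Q1. Let `k ≥ 1` and `n ≥ 3` be coprime. Basic (k,n)-setups with admissible
markings exist, and for every basic (k,n)-setup `z` with admissible marking `A` there is `ε₀ > 0`
such that for every `ε` with `0 < ε < ε₀` the successive translations of the polygons by `ε A i`
are pattern-preserving regular translations (so the resulting collection is a shifted
(k,n)-setup), and its perimeter-to-area ratio exceeds `4 tan (π / n)` if and only if `k > 1` and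
`k ≡ 1 (mod n)`. -/
theorem result (k n : ℕ) (hk : 1 ≤ k) (hn : 3 ≤ n) (hkn : Nat.Coprime k n) :
    (∃ z A : Fin k → ℂ, IsBasicSetup k n z ∧ IsMarking k n z A) ∧
    ∀ z A : Fin k → ℂ, IsBasicSetup k n z → IsMarking k n z A →
      ∃ ε₀ : ℝ, 0 < ε₀ ∧ ∀ ε : ℝ, 0 < ε → ε < ε₀ →
        IsShiftedSetup k n z A ε ∧
        (4 * Real.tan (Real.pi / n) < ratio (unionOf n (fun i => (ε : ℂ) * A i) z) ↔
          1 < k ∧ k ≡ 1 [MOD n]) :=
  main k n hk hn hkn

end Pool.Agent.Results.MP_7297ca_co.ShiftedSetupRatio
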